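import Pool.Agent.Q160.EditDist

/-!
# `(r,r)`-guaranteed sets of strings need not be `(r+1,r+1)`-guaranteed

Strings are lists over a finite alphabet `α`; `EditLE r s t` says that the Levenshtein distance of
`s` and `t` is at most `r` (at most `r` single-character insertions, deletions and substitutions
turn `s` into `t`, with arbitrary intermediate strings).

For binary strings of length `8` the set `B` of the `16` strings below is `(3,3)`-guaranteed, but it
is not `(4,4)`-guaranteed: for `s = 11001100` and `t = 00110011`, whose distance is `4`, no element
of `B` is within distance `4` of both `s` and `t`.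
-/

set_option autoImplicit false

namespace Pool.Agent.Results.MP_a407c4_co.NotMonotone

open Q160.Edit

/-- `B` is a `(d, r)`-guaranteed set of strings of length `n`: for all strings `s, t` of length `n`
with `edit(s,t) ≤ d` some `v ∈ B` (of length `n`) has `edit(s,v) ≤ r` and `edit(t,v) ≤ r`. -/
def Guaranteed {α : Type} (n d r : ℕ) (B : Set (List α)) : Prop :=
  ∀ s t : List α, s.length = n → t.length = n → EditLE d s t →
    ∃ v, v ∈ B ∧ v.length = n ∧ EditLE r s v ∧ EditLE r t v

/-- all binary strings of length `n` -/
def strs : ℕ → List (List Bool)
  | 0 => [[]]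
  | n + 1 => (strs n).map (false :: ·) ++ (strs n).map (true :: ·)

theorem mem_strs {n : ℕ} {x : List Bool} (h : x.length = n) : x ∈ strs n := by
  induction n generalizing x with
  | zero => rw [List.length_eq_zero_iff] at h; simp [strs, h]
  | succ n ih =>
    match x, h with
    | a :: x, h =>
      have hx := ih (x := x) (by simpa using h)
      cases a <;> simp [strs, hx]

/-- the sixteen strings -/
def B : List (List Bool) := [
  [false, false, true, false, true, false, true, true],
  [true, true, false, true, false, true, false, false],
  [false, true, true, true, false, false, false, true],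
  [true, false, false, false, true, true, true, false],
  [false, false, true, false, false, false, true, true],
  [true, false, true, true, true, true, false, false],
  [true, true, false, false, true, false, false, false],
  [false, true, true, true, true, false, true, true],
  [true, false, false, false, false, true, false, false],
  [true, true, false, true, true, true, true, false],
  [false, false, true, true, false, true, true, true],
  [true, true, false, false, false, false, true, false],
  [false, false, false, true, false, false, true, true],
  [true, true, true, false, true, true, false, false],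
  [false, false, true, true, true, false, true, true],
  [false, false, true, false, false, false, false, true]]

/-- the indicator bits of the elements of a list that are within distance 3 of `x` -/
def mask (x : List Bool) : List (List Bool) → ℕ
  | [] => 0
  | v :: l => 2 * mask x l + (test 16 3 x v).toNat

theorem mask_land (x y : List Bool) (l : List (List Bool)) (h : mask x l &&& mask y l ≠ 0) :
    ∃ v ∈ l, test 16 3 x v = true ∧ test 16 3 y v = true := by
  induction l with
  | nil => exact (h (by simp [mask])).elim
  | cons v l ih =>
    by_cases hv : test 16 3 x v = true ∧ test 16 3 y v = true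
    · exact ⟨v, List.mem_cons_self, hv⟩
    · have h2 : mask x l &&& mask y l ≠ 0 := by
        intro h0
        apply h
        apply Nat.eq_of_testBit_eq
        intro i
        rw [Nat.testBit_and, Nat.zero_testBit]
        have e : ∀ z, mask z (v :: l) = Nat.bit (test 16 3 z v) (mask z l) := by
          intro z
          rw [Nat.bit_val]; rfl
        rw [e, e]
        cases i with
        | zero =>
          rw [Nat.testBit_bit_zero, Nat.testBit_bit_zero]
          by_contra hc
          rw [Bool.not_eq_false, Bool.and_eq_true] at hc
          exact hv hc
        | succ i =>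
          rw [Nat.testBit_bit_succ, Nat.testBit_bit_succ, ← Nat.testBit_and, h0, Nat.zero_testBit]
      obtain ⟨u, hu, hu'⟩ := ih h2
      exact ⟨u, List.mem_cons_of_mem _ hu, hu'⟩

/-- the masks of the 256 strings -/
def masks : List ℕ := [39248, 37141, 39193, 56337, 39194, 40209, 40217, 38169, 37193, 53585, 55641, 54681, 8552,
54553, 5913, 21529, 37206, 54357, 56665, 54421, 38251, 54559, 22299, 21529, 53612, 54685, 22409,
21657, 17194, 21673, 22057, 22153, 35157, 56341, 56597, 54421, 46451, 54549, 54553, 54297,
61815, 54679, 54683, 54417, 58667, 62641, 30265, 54937, 54324, 54421, 54421, 54421, 58663,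
54453, 30393, 54421, 49317, 54453, 22205, 54421, 26284, 50861, 18089, 21681, 35142, 39252,
39260, 39325, 43354, 39199, 39707, 39961, 47430, 39383, 39899, 56529, 9066, 62672, 11896, 22169,
39254, 39127, 39895, 56469, 41831, 54423, 32443, 22175, 41702, 62711, 32495, 22165, 25326,
18095, 18091, 22177, 43350, 35029, 35287, 56469, 43366, 64727, 32479, 54941, 43239, 64759,
28407, 54935, 9958, 59047, 9899, 26257, 43238, 56500, 31924, 54421, 25830, 58535, 26279, 29845,
24806, 57509, 25255, 21685, 8870, 26276, 26272, 18053, 35146, 39248, 39256, 39193, 10602, 39195,
6938, 7449, 14698, 39243, 6987, 23897, 11114, 31080, 11112, 22281, 39282, 39255, 39771, 56665,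
43883, 56699, 16235, 22299, 41838, 62847, 32619, 22169, 25450, 18347, 18218, 22185, 43378,
35159, 35167, 56605, 43370, 48511, 16251, 38681, 43375, 63863, 27515, 54939, 9066, 59307, 10027,
26297, 43366, 56436, 32624, 54421, 10082, 59303, 26539, 30393, 25190, 58023, 25263, 22197, 9134,
26284, 26280, 18089, 10562, 35142, 35662, 39260, 11082, 43358, 11098, 2842, 11082, 47430, 11082,
6875, 11114, 11082, 11114, 10824, 43846, 47190, 15170, 6871, 11106, 11207, 11243, 16011, 10854,
10982, 10986, 32451, 9066, 25322, 10858, 18090, 43334, 43094, 10582, 34965, 10598, 43462, 11214,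
11932, 10342, 43239, 10991, 28375, 9066, 9958, 11882, 9865, 10342, 43238, 10982, 23700, 9190,
26278, 28322, 26246, 8934, 25318, 27362, 25253, 8802, 8870, 8874, 26272]

theorem masks_eq : (strs 8).map (fun x => mask x B) = masks := by decide +kernel

/-- the check of all pairs -/
def pairsOK (tab : List (List Bool × ℕ)) : Bool :=
  tab.all fun p => tab.all fun q => !(Nat.beq (Nat.land p.2 q.2) 0) || !(test 16 3 p.1 q.1)

theorem pairs_ok : pairsOK ((strs 8).zip masks) = true := by decide +kernel

theorem zip_map_self {α β : Type} (f : α → β) (l : List α) :
    l.zip (l.map f) = l.map fun x => (x, f x) := by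
  induction l with
  | nil => rfl
  | cons a l ih => simp [ih]

theorem guaranteed : Guaranteed 8 3 3 {v | v ∈ B} := by
  intro s t hs ht hst
  have h1 := pairs_ok
  rw [← masks_eq, zip_map_self, pairsOK, List.all_eq_true] at h1
  have h2 := h1 _ (List.mem_map_of_mem (mem_strs hs))
  rw [List.all_eq_true] at h2
  have h3 := h2 _ (List.mem_map_of_mem (mem_strs ht))
  rw [editLE_iff_test (n := 16) (by omega)] at hst
  rw [Bool.or_eq_true, hst] at h3
  have h4 : mask s B &&& mask t B ≠ 0 := by
    rcases h3 with h3 | h3
    · intro h
      have : Nat.beq (mask s B &&& mask t B) 0 = true := by rw [h]; rfl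
      rw [Bool.not_eq_true'] at h3
      exact absurd (this.symm.trans h3) (by decide)
    · exact absurd h3 (by decide)
  obtain ⟨v, hv, hv1, hv2⟩ := mask_land s t B h4
  have hlen : v.length = 8 := by
    have : ∀ v ∈ B, v.length = 8 := by decide
    exact this v hv
  exact ⟨v, hv, hlen, (editLE_iff_test (by omega)).2 hv1, (editLE_iff_test (by omega)).2 hv2⟩

/-- the first string of the bad pair -/
def s₀ : List Bool := [true, true, false, false, true, true, false, false]
/-- the second string of the bad pair -/
def t₀ : List Bool := [false, false, true, true, false, false, true, true]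

theorem not_guaranteed : ¬ Guaranteed 8 4 4 {v | v ∈ B} := by
  intro h
  obtain ⟨v, hv, hlen, h1, h2⟩ := h s₀ t₀ rfl rfl ((editLE_iff_test (n := 16) (by decide)).2
    (by decide +kernel))
  rw [editLE_iff_test (n := 16) (by rw [hlen]; decide)] at h1 h2
  have key : ∀ v ∈ B, ¬ (test 16 4 s₀ v = true ∧ test 16 4 t₀ v = true) := by decide +kernel
  exact key v hv ⟨h1, h2⟩

theorem result : ¬ ∀ (α : Type) [Fintype α], 1 < Fintype.card α → ∀ n r : ℕ, 1 ≤ n → 1 ≤ r →
    ∀ B : Set (List α), (∀ v ∈ B, v.length = n) →
      Guaranteed n r r B → Guaranteed n (r + 1) (r + 1) B := by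
  intro h
  refine not_guaranteed (h Bool (by decide) 8 3 (by norm_num) (by norm_num) {v | v ∈ B} ?_
    guaranteed)
  have : ∀ v ∈ B, v.length = 8 := by decide
  exact this

end Pool.Agent.Results.MP_a407c4_co.NotMonotone
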